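import Pool.Agent.T2H95.Sqf.Main4

/-!
# `T_Sqf` is not MS-measurable
-/

set_option autoImplicit false

open FirstOrder Pool.Agent.T2H95.Sqf

namespace Pool.Agent.Results.MP_c6a6a6_lc.NotMSMeasurable

universe w

/-- No model of `T_Sqf` is MS-measurable. -/
theorem result : ∀ (M : Type w) [Lsqf.Structure M], M ⊨ TSqf → ¬ MSMeasurable Lsqf M :=
  fun _ _ hM => not_msMeasurable hM

end Pool.Agent.Results.MP_c6a6a6_lc.NotMSMeasurable
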